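import Pool.Agent.Helper29.BL.GoalsA
import Pool.Agent.Helper29.BL.GoalsD
import Pool.Agent.Helper29.BL.PS

/-!
# Project BL (MP_a41896_nt), packet COR: finitely many centres, with multiplicities.
-/

namespace Pool.Agent.Helper90.BL

open WeierstrassCurve Height Height.AdmissibleAbsValues Polynomial Pool.Agent.Helper29.BL
open scoped Polynomial.Bivariate

noncomputable section

theorem cor_of : MAIN → PAR → NOR → XEQ → COR := by
  intro hMain hPar hNor _ K _ _ _ W₁ W₂ _ _ Γ₁ Γ₂ hΓ₁ hΓ₂ S hS μ δ hδ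
  classical
  obtain ⟨c₁, hc₁⟩ := hPar K W₁
  obtain ⟨c₂, hc₂⟩ := hPar K W₂
  -- a bound for the weights
  obtain ⟨m, hm1, hmμ⟩ : ∃ m : ℝ, 1 ≤ m ∧ ∀ a ∈ S, μ a ≤ m := by
    refine ⟨1 + ∑ a ∈ S, |μ a|, ?_, ?_⟩
    · have : 0 ≤ ∑ a ∈ S, |μ a| := Finset.sum_nonneg fun _ _ => abs_nonneg _
      linarith
    · intro a ha
      have h1 : |μ a| ≤ ∑ a ∈ S, |μ a| := Finset.single_le_sum (f := fun a => |μ a|) (fun _ _ => abs_nonneg _) ha
      linarith [le_abs_self (μ a)]
  -- the constant for the translations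
  obtain ⟨c, hc0, hca⟩ : ∃ c : ℝ, 0 ≤ c ∧ ∀ a ∈ S,
      (∀ P, hx (P - a.1) ≤ 2 * hx P + c) ∧ (∀ Q, hx (Q - a.2) ≤ 2 * hx Q + c) := by
    refine ⟨|c₁| + |c₂| + 2 * ∑ a ∈ S, hh a, ?_, ?_⟩
    · have : 0 ≤ ∑ a ∈ S, hh a := Finset.sum_nonneg fun a _ => hh_nonneg a
      positivity
    · intro a ha
      have h1 : hh a ≤ ∑ a ∈ S, hh a := Finset.single_le_sum (f := fun a => hh a) (fun a _ => hh_nonneg a) ha
      have h2 : hh a = hx a.1 + hx a.2 := rfl
      have h3 := hx_nonneg a.1
      have h4 := hx_nonneg a.2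
      constructor
      · intro P
        have h5 := (abs_le.1 (hc₁ P a.1)).2
        have h6 := hx_nonneg (P + a.1)
        have h7 := le_abs_self c₁
        have h8 := abs_nonneg c₂
        linarith
      · intro Q
        have h5 := (abs_le.1 (hc₂ Q a.2)).2
        have h6 := hx_nonneg (Q + a.2)
        have h7 := le_abs_self c₂
        have h8 := abs_nonneg c₁
        linarith
  rcases S.eq_empty_or_nonempty with hSe | hSne
  · -- no centres
    subst hSe
    refine ⟨1, 0, one_ne_zero, fun T hT B hB => ?_⟩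
    have : B = ∅ := by
      refine Finset.eq_empty_of_forall_notMem fun z hz => ?_
      have h1 := (hB z hz).2.2.2.2.2
      rw [Finset.sum_empty] at h1
      have h2 := mul_nonneg hδ.le (hh_nonneg z)
      linarith
    rw [this]
    simp
  have hN : (0 : ℝ) < S.card := by exact_mod_cast hSne.card_pos
  set δ' : ℝ := δ / (2 * m * S.card) with hδ'
  have hm0 : 0 < m := by linarith
  have hδ'0 : 0 < δ' := by positivity
  obtain ⟨Z, C, hZ, hmain⟩ := hMain K W₁ W₂ Γ₁ Γ₂ hΓ₁ hΓ₂ δ' hδ'0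
  -- the finite set of small points
  have hfin : ({P : W₁.Point | hx P ≤ 2 * c} ×ˢ {Q : W₂.Point | hx Q ≤ 2 * c} :
      Set (W₁.Point × W₂.Point)).Finite :=
    ((hNor K W₁).1 (2 * c)).prod ((hNor K W₂).1 (2 * c))
  set F0 : Finset (W₁.Point × W₂.Point) := hfin.toFinset with hF0
  set L : ℝ := Real.log (2 + c) / Real.log 2 + 1 with hL
  have hlog2 : 0 < Real.log 2 := Real.log_pos (by norm_num)
  have hL0 : 0 ≤ L := by
    have : 0 ≤ Real.log (2 + c) := Real.log_nonneg (by linarith)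
    positivity
  refine ⟨Z, S.card * (|C| * L ^ 2 + F0.card / Real.log 2 ^ 2), hZ, fun T hT B hB => ?_⟩
  have hT0 : 0 < T := by linarith
  have hlogT : Real.log 2 ≤ Real.log T := Real.log_le_log (by norm_num) hT
  have hlogT0 : 0 < Real.log T := by linarith
  -- comparison of the logarithms
  have hlog : Real.log (2 * T + c) ≤ L * Real.log T := by
    have h1 : 2 * T + c ≤ (2 + c) * T := by nlinarith
    have h2 : Real.log (2 * T + c) ≤ Real.log ((2 + c) * T) := Real.log_le_log (by linarith) h1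
    rw [Real.log_mul (by linarith) hT0.ne'] at h2
    have h3 : Real.log (2 + c) ≤ Real.log (2 + c) / Real.log 2 * Real.log T := by
      have h4 : 0 ≤ Real.log (2 + c) := Real.log_nonneg (by linarith)
      rw [div_mul_eq_mul_div, le_div_iff₀ hlog2]
      exact mul_le_mul_of_nonneg_left hlogT h4
    rw [hL, add_mul, one_mul]
    linarith
  have hlog0 : 0 ≤ Real.log (2 * T + c) := Real.log_nonneg (by linarith)
  -- the two kinds of points
  set Ba : W₁.Point × W₂.Point → Finset (W₁.Point × W₂.Point) := fun a =>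
    B.filter fun z => δ' * max (hx (z - a).1) (hx (z - a).2) ≤ gg (z - a) with hBa
  set Ga : W₁.Point × W₂.Point → Finset (W₁.Point × W₂.Point) := fun a =>
    B.filter fun z => hx (z - a).1 ≤ 2 * c ∧ hx (z - a).2 ≤ 2 * c with hGa
  have hcover : B ⊆ S.biUnion fun a => Ba a ∪ Ga a := by
    intro z hz
    obtain ⟨hz1, hz2, hz3, hz4, hz5, hz6⟩ := hB z hz
    obtain ⟨a, ha, hgt⟩ : ∃ a ∈ S, δ / S.card * hh z < m * (gg (z - a) / 2) := by
      by_contra hcon
      push Not at hcon
      have h1 : ∑ a ∈ S, μ a * (gg (z - a) / 2) ≤ ∑ _a ∈ S, δ / S.card * hh z := by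
        refine Finset.sum_le_sum fun a ha => ?_
        have h2 := gg_nonneg (z - a)
        exact (mul_le_mul_of_nonneg_right (hmμ a ha) (by positivity)).trans (hcon a ha)
      rw [Finset.sum_const, nsmul_eq_mul] at h1
      have h2 : (S.card : ℝ) * (δ / S.card * hh z) = δ * hh z := by
        field_simp
      linarith
    refine Finset.mem_biUnion.2 ⟨a, ha, Finset.mem_union.2 ?_⟩
    have e1 : (z - a).1 = z.1 - a.1 := rfl
    have e2 : (z - a).2 = z.2 - a.2 := rfl
    by_cases hsm : hx (z - a).1 ≤ 2 * c ∧ hx (z - a).2 ≤ 2 * c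
    · right
      exact Finset.mem_filter.2 ⟨hz, hsm⟩
    · left
      refine Finset.mem_filter.2 ⟨hz, ?_⟩
      have hM1 : max (hx (z - a).1) (hx (z - a).2) ≤ 2 * hh z + c := by
        have h1 := (hca a ha).1 z.1
        have h2 := (hca a ha).2 z.2
        have h3 := hx_nonneg z.1
        have h4 := hx_nonneg z.2
        have h5 : hh z = hx z.1 + hx z.2 := rfl
        rw [e1, e2]
        refine max_le ?_ ?_ <;> linarith
      have hM2 : 2 * c ≤ max (hx (z - a).1) (hx (z - a).2) := by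
        by_contra hcon
        push Not at hcon
        exact hsm ⟨(le_max_left _ _).trans hcon.le, (le_max_right _ _).trans hcon.le⟩
      set Mx := max (hx (z - a).1) (hx (z - a).2) with hMx
      have h1 : Mx ≤ 4 * hh z := by linarith
      have h2 : δ' * Mx ≤ δ' * (4 * hh z) := mul_le_mul_of_nonneg_left h1 hδ'0.le
      have h3 : δ' * (4 * hh z) = 2 / m * (δ / S.card * hh z) := by
        rw [hδ']
        field_simp
        ring
      have h4 : 2 / m * (δ / S.card * hh z) ≤ 2 / m * (m * (gg (z - a) / 2)) :=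
        mul_le_mul_of_nonneg_left hgt.le (by positivity)
      have h5 : 2 / m * (m * (gg (z - a) / 2)) = gg (z - a) := by
        field_simp
      linarith
  -- the bound for `Ba`
  have hb1 : ∀ a ∈ S, ((Ba a).card : ℝ) ≤ |C| * L ^ 2 * Real.log T ^ 2 := by
    intro a ha
    have h1 : ((Ba a).map (Equiv.subRight a).toEmbedding).card = (Ba a).card := Finset.card_map _
    rw [← h1]
    have h2 := hmain (2 * T + c) (by linarith) ((Ba a).map (Equiv.subRight a).toEmbedding) ?_
    · refine h2.trans ?_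
      have h3 : Real.log (2 * T + c) ^ 2 ≤ (L * Real.log T) ^ 2 := pow_le_pow_left₀ hlog0 hlog 2
      calc C * Real.log (2 * T + c) ^ 2 ≤ |C| * Real.log (2 * T + c) ^ 2 :=
            mul_le_mul_of_nonneg_right (le_abs_self C) (sq_nonneg _)
        _ ≤ |C| * (L * Real.log T) ^ 2 := mul_le_mul_of_nonneg_left h3 (abs_nonneg C)
        _ = |C| * L ^ 2 * Real.log T ^ 2 := by ring
    · intro w hw
      obtain ⟨z, hz, rfl⟩ := Finset.mem_map.1 hw
      obtain ⟨hzB, hzg⟩ := Finset.mem_filter.1 hz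
      obtain ⟨hz1, hz2, hz3, hz4, hz5, hz6⟩ := hB z hzB
      have e0 : (Equiv.subRight a).toEmbedding z = z - a := rfl
      rw [e0]
      have g1 := (hca a ha).1 z.1
      have g2 := (hca a ha).2 z.2
      refine ⟨Γ₁.sub_mem hz1 (hS a ha).1, Γ₂.sub_mem hz2 (hS a ha).2, (hz5 a ha).1, (hz5 a ha).2,
        ?_, ?_, hzg⟩
      · change hx (z.1 - a.1) ≤ _
        linarith
      · change hx (z.2 - a.2) ≤ _
        linarith
  -- the bound for `Ga`
  have hb2 : ∀ a ∈ S, ((Ga a).card : ℝ) ≤ F0.card / Real.log 2 ^ 2 * Real.log T ^ 2 := by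
    intro a ha
    have h1 : ((Ga a).map (Equiv.subRight a).toEmbedding).card = (Ga a).card := Finset.card_map _
    have h2 : (Ga a).map (Equiv.subRight a).toEmbedding ⊆ F0 := by
      intro w hw
      obtain ⟨z, hz, rfl⟩ := Finset.mem_map.1 hw
      obtain ⟨hzB, hzg⟩ := Finset.mem_filter.1 hz
      rw [hF0, Set.Finite.mem_toFinset]
      exact hzg
    have h3 : ((Ga a).card : ℝ) ≤ F0.card := by
      rw [← h1]
      exact_mod_cast Finset.card_le_card h2
    refine h3.trans ?_
    rw [div_mul_eq_mul_div, le_div_iff₀ (by positivity)]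
    exact mul_le_mul_of_nonneg_left (pow_le_pow_left₀ hlog2.le hlogT 2) (Nat.cast_nonneg _)
  calc (B.card : ℝ) ≤ ((S.biUnion fun a => Ba a ∪ Ga a).card : ℝ) := by
        exact_mod_cast Finset.card_le_card hcover
    _ ≤ ((∑ a ∈ S, (Ba a ∪ Ga a).card : ℕ) : ℝ) := by exact_mod_cast Finset.card_biUnion_le
    _ = ∑ a ∈ S, ((Ba a ∪ Ga a).card : ℝ) := by push_cast; rfl
    _ ≤ ∑ _a ∈ S, (|C| * L ^ 2 * Real.log T ^ 2 + F0.card / Real.log 2 ^ 2 * Real.log T ^ 2) := by
        refine Finset.sum_le_sum fun a ha => ?_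
        have h1 : ((Ba a ∪ Ga a).card : ℝ) ≤ (Ba a).card + (Ga a).card := by
          exact_mod_cast Finset.card_union_le _ _
        linarith [hb1 a ha, hb2 a ha]
    _ = S.card * (|C| * L ^ 2 + F0.card / Real.log 2 ^ 2) * Real.log T ^ 2 := by
        rw [Finset.sum_const, nsmul_eq_mul]
        ring

end

end Pool.Agent.Helper90.BL
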